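import Pool.Agent.TH101.RG.OrbT

set_option autoImplicit false

/-!
# Clusters of primes all of whose Cunningham orbits are free of primes up to time `D log p`

The coloured Maynard-Tao theorem for arbitrary admissible `K`-tuples `t` of the range `[0, (log X)²]` (they may depend
on `X`) for integers `n` such that the Cunningham orbits of the first and of the second kind of ALL the `n + t_j`
contain no prime, and no small multiple of a prime, up to the time `D log X`, and such that moreover an arbitrary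
prescribed finite family of linear forms `a n + b` with coefficients up to `X^D` takes no such value: only the total
weight `Σ N/φ(N)`, `N = |a Π_j (b - a t_j)|`, of the family is bounded, by a constant multiple of `log X loglog X`.

Greedy choice of classes modulo the small primes, the record windows of helper312's team and the coloured Maynard-Tao
theorem of helper362 (starting files), and Romanoff's averages of `N/φ(N)` along the orbits
(`Pool.Agent.TH101.RG`).
-/

open Filter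

namespace Pool.Agent.Results.MP_77cbc6_nt.OrbitsAtClusters

/-- The number `|a Π_j (b - a t_j)|` attached to the form `a n + b` and the tuple `t`. -/
def disc {K : ℕ} (t : Fin K → ℕ) (z : ℤ × ℤ) : ℕ := (z.1 * ∏ j, (z.2 - z.1 * t j)).natAbs

/-- There is `η > 0` and for every `m` there is `K ≥ m` such that the following holds. Let `D, J` be given and `d`
squarefree. There is `c > 0` such that for all large `X`: let `t_1, …, t_K` be distinct integers of `[0, (log X)²]`
such that for every prime `p` the `v + t_j` are prime to `p` for some `v`, let the `h + t_j` be prime to `d`, let the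
`K` indices be coloured with `m` colours, each used at least `K/(2m)` times, and let `Z` be a finite set of pairs
`(a, b)` with `a ≠ 0`, `b ≠ a t_j`, `|a|, |b| ≤ X^D` and `Σ_{(a,b) ∈ Z} N/φ(N) ≤ c log X loglog X`,
`N = |a Π_j (b - a t_j)|`. Then for at least `X^(7/8)` integers `n ≡ h (mod d)` of `(X, 3X]` at least `η m` of the
colours contain an index `j` with `n + t_j` prime, while no `a n + b`, `(a, b) ∈ Z`, and none of the numbers
`2^l (n + t_j + 1) - 1` and `2^l (n + t_j - 1) + 1`, for all `j` and all `1 ≤ l ≤ D log X`, is of the form `i q` with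
`1 ≤ |i| ≤ J` and `q` prime. -/
theorem result : ∃ η : ℝ, 0 < η ∧ ∀ m : ℕ, 1 ≤ m → ∃ K : ℕ, m ≤ K ∧
    ∀ (D J d : ℕ), Squarefree d → ∃ c : ℝ, 0 < c ∧ ∃ X₀ : ℝ, ∀ X : ℝ, X₀ ≤ X →
    ∀ t : Fin K → ℕ, Function.Injective t → (∀ j, (t j : ℝ) ≤ (Real.log X) ^ 2) →
    (∀ p : ℕ, p.Prime → ∃ v : ℕ, ∀ j, ¬ p ∣ v + t j) →
    ∀ h : ℕ, (∀ j, (h + t j).Coprime d) →
    ∀ col : Fin K → Fin m, (∀ e, K ≤ 2 * m * {j | col j = e}.ncard) →
    ∀ Z : Finset (ℤ × ℤ),
    (∀ z ∈ Z, z.1 ≠ 0 ∧ (∀ j, z.2 ≠ z.1 * t j) ∧ |(z.1 : ℝ)| ≤ X ^ D ∧ |(z.2 : ℝ)| ≤ X ^ D) →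
    ∑ z ∈ Z, (disc t z : ℝ) / ((disc t z).totient : ℝ) ≤ c * (Real.log X * Real.log (Real.log X)) →
      X ^ (7 / 8 : ℝ) ≤ ({n : ℕ | X < n ∧ (n : ℝ) ≤ 3 * X ∧ n ≡ h [MOD d] ∧
        η * m ≤ ({e : Fin m | ∃ j, col j = e ∧ (n + t j).Prime}.ncard : ℝ) ∧
        ∀ i : ℤ, 1 ≤ |i| → |i| ≤ J → ∀ q : ℕ, q.Prime →
          (∀ z ∈ Z, i * q ≠ z.1 * n + z.2) ∧
          ∀ j, ∀ l : ℕ, 1 ≤ l → (l : ℝ) ≤ D * Real.log X →
            i * q ≠ 2 ^ l * (n + t j + 1) - 1 ∧ i * q ≠ 2 ^ l * (n + t j - 1) + 1}.ncard : ℝ) := by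
  classical
  obtain ⟨η, hη, H⟩ := Pool.Agent.TH101.RG.orbit_forms
  refine ⟨η, hη, fun m hm => ?_⟩
  obtain ⟨K, hmK, HK⟩ := H m hm
  refine ⟨K, hmK, fun D J d hd => ?_⟩
  obtain ⟨c, hc, hX⟩ := HK D J d hd
  obtain ⟨X₀, hX₀⟩ := eventually_atTop.1 hX
  refine ⟨c, hc, X₀, fun X hXX t htinj htl hadm h hh col hcol Z hZ hZw => ?_⟩
  set S := {n : ℕ | X < n ∧ (n : ℝ) ≤ 3 * X ∧ n ≡ h [MOD d] ∧
        η * m ≤ ({e : Fin m | ∃ j, col j = e ∧ (n + t j).Prime}.ncard : ℝ) ∧
        ∀ i : ℤ, 1 ≤ |i| → |i| ≤ J → ∀ q : ℕ, q.Prime →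
          (∀ z ∈ Z, i * q ≠ z.1 * n + z.2) ∧
          ∀ j, ∀ l : ℕ, 1 ≤ l → (l : ℝ) ≤ D * Real.log X →
            i * q ≠ 2 ^ l * (n + t j + 1) - 1 ∧ i * q ≠ 2 ^ l * (n + t j - 1) + 1} with hS
  have hfin : S.Finite := by
    apply (Set.finite_Iic ⌊3 * X⌋₊).subset
    intro p hp
    exact Set.mem_Iic.2 (Nat.le_floor hp.2.1)
  by_contra hcon
  push Not at hcon
  rw [Set.ncard_eq_toFinset_card S hfin] at hcon
  obtain ⟨n, hXn, hn3, hnb, hnd, ⟨E, hE1, hE2⟩, hmain⟩ := hX₀ X hXX t htinj htl hadm h hh col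
    (fun e => by
      have h1 : {j | col j = e}.ncard = Pool.Agent.H362R2.RQ.fib col e := by
        rw [Set.ncard_eq_toFinset_card']
        unfold Pool.Agent.H362R2.RQ.fib
        congr 1
        ext j
        simp
      rw [← h1]
      exact hcol e) Z hZ hZw hfin.toFinset hcon.le
  apply hnb
  rw [Set.Finite.mem_toFinset]
  refine ⟨hXn, hn3, hnd, hE1.trans ?_, hmain⟩
  have h1 : (E : Set (Fin m)) ⊆ {e : Fin m | ∃ j, col j = e ∧ (n + t j).Prime} := fun e he => hE2 e he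
  have h2 := Set.ncard_le_ncard h1 (Set.toFinite _)
  rw [Set.ncard_coe_finset] at h2
  exact_mod_cast h2

end Pool.Agent.Results.MP_77cbc6_nt.OrbitsAtClusters
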